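import Pool.Agent.LT.Main

set_option autoImplicit false

namespace Pool.Agent.Results.MP_c673bc_al.ExtTame

open Pool.Agent.LT

universe u

/-- Let `G` be a finitely presented group and `N` a normal subgroup which is locally tame and has
fgip in `G` (its intersection with every finitely generated subgroup of `G` is finitely
generated), such that `G ⧸ N` is locally tame. Then `G` is locally tame; moreover every finitely
generated subgroup `H` of `G` is tame with respect to every finite presentation of `G`. -/
theorem result {G : Type u} [Group G] (N : Subgroup G) [N.Normal]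
    (hG : Nonempty (FinPres G))
    (hN : LocallyTame N) (hQ : LocallyTame (G ⧸ N))
    (hfgip : ∀ S : Subgroup G, S.FG → (N ⊓ S).FG) :
    LocallyTame G ∧ ∀ (P : FinPres G) (H : Subgroup G), H.FG → TameWith P H :=
  ⟨⟨hG, fun H hH => hG.elim fun P => ⟨P, main N hN hQ hfgip P H hH⟩⟩,
    fun P H hH => main N hN hQ hfgip P H hH⟩

end Pool.Agent.Results.MP_c673bc_al.ExtTame
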